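import Pool.Agent.Lib_helper33.ASM.Stmts

/-!
# Module FIN: conclusion of the finite part
-/

set_option autoImplicit false

open scoped BigOperators

namespace Pool.Agent.Lib_helper8.ASM

open Pool.Agent.Lib_helper33.ASM

variable {d : ℕ} {p : ℝ}

/-- choice of the number of scales -/
lemma exists_scale (d k₀ N : ℕ) {c : ℝ} (hc : 0 < c) : ∃ j : ℕ,
    (2 : ℝ) ^ (N + j + 1) * ((1 / 2 : ℝ) ^ (10 * d + 4)) ^ (j + 2) ≤
      c / 2 * (1 / 2) ^ (d * (10 * (k₀ + N + j + 1))) := by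
  set A : ℝ := 2 ^ (N + 1) * 2 ^ (10 * d * (k₀ + N + 1)) with hA
  have hA0 : 0 < A := by positivity
  obtain ⟨j, hj⟩ := exists_pow_lt_of_lt_one (show (0 : ℝ) < c / 2 / A by positivity)
    (show (1 / 2 : ℝ) < 1 by norm_num)
  refine ⟨j, ?_⟩
  have h1 : A * (1 / 2 : ℝ) ^ j ≤ c / 2 := by
    rw [lt_div_iff₀ hA0] at hj
    linarith
  have e0 : ∀ m : ℕ, (2 : ℝ) ^ m * (1 / 2 : ℝ) ^ m = 1 := by
    intro m
    rw [← mul_pow]
    norm_num
  have h2 : (2 : ℝ) ^ (N + j + 1) * ((1 / 2 : ℝ) ^ (10 * d + 4)) ^ (j + 2) ≤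
      A * (1 / 2 : ℝ) ^ j * (1 / 2) ^ (d * (10 * (k₀ + N + j + 1))) := by
    have e1 : ((1 / 2 : ℝ) ^ (10 * d + 4)) ^ (j + 2) ≤ (1 / 2 : ℝ) ^ (10 * d * j + 2 * j) := by
      rw [← pow_mul]
      apply pow_le_pow_of_le_one (by norm_num) (by norm_num)
      nlinarith [Nat.zero_le d, Nat.zero_le j]
    have e2 : A * (1 / 2 : ℝ) ^ j * (1 / 2) ^ (d * (10 * (k₀ + N + j + 1))) =
        2 ^ (N + 1) * (1 / 2 : ℝ) ^ j * (1 / 2 : ℝ) ^ (10 * d * j) := by
      have : (1 / 2 : ℝ) ^ (d * (10 * (k₀ + N + j + 1))) =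
          (1 / 2 : ℝ) ^ (10 * d * (k₀ + N + 1)) * (1 / 2 : ℝ) ^ (10 * d * j) := by
        rw [← pow_add]
        congr 1
        ring
      rw [this, hA]
      calc _ = 2 ^ (N + 1) * (2 ^ (10 * d * (k₀ + N + 1)) * (1 / 2 : ℝ) ^ (10 * d * (k₀ + N + 1))) *
            (1 / 2 : ℝ) ^ j * (1 / 2 : ℝ) ^ (10 * d * j) := by ring
        _ = _ := by rw [e0, mul_one]
    rw [e2]
    calc (2 : ℝ) ^ (N + j + 1) * ((1 / 2 : ℝ) ^ (10 * d + 4)) ^ (j + 2)
        ≤ (2 : ℝ) ^ (N + j + 1) * (1 / 2 : ℝ) ^ (10 * d * j + 2 * j) :=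
          mul_le_mul_of_nonneg_left e1 (by positivity)
      _ = 2 ^ (N + 1) * (2 ^ j * (1 / 2 : ℝ) ^ j) * (1 / 2 : ℝ) ^ j * (1 / 2 : ℝ) ^ (10 * d * j) := by
          ring
      _ = _ := by rw [e0, mul_one]
  exact h2.trans (mul_le_mul_of_nonneg_right h1 (by positivity))

/-- If `FR` holds and at least `N` of the scales are good ... -/
lemma sum_good_ge {ι : Type} [Fintype ι] [DecidableEq ι] {a : ℝ} (hP : Par a p)
    (F : Cfg ι → Prop) (G : ℕ → Cfg ι → Prop) (k₀ n N b : ℕ) (hb : N + b ≤ n + 1 - k₀ + 1)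
    {γ : ℝ} (hγ : ∀ S : Finset ℕ, S ⊆ Finset.Icc k₀ n →
      pr a p (fun ω => ∀ k ∈ S, ¬ G k ω) ≤ γ ^ S.card) (hγ0 : 0 ≤ γ) :
    N * (pr a p F - 2 ^ (n + 1 - k₀) * γ ^ b) ≤
      ∑ k ∈ Finset.Icc k₀ n, pr a p (fun ω => F ω ∧ G k ω) := by
  classical
  -- the event of few good scales
  set Few : Cfg ι → Prop := fun ω => ((Finset.Icc k₀ n).filter fun k => G k ω).card < N with hFew
  have h1 : pr a p Few ≤ 2 ^ (n + 1 - k₀) * γ ^ b := by
    have h2 : pr a p Few ≤ pr a p (fun ω => ∃ S ∈ (Finset.Icc k₀ n).powersetCard b,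
        ∀ k ∈ S, ¬ G k ω) := by
      refine pr_mono hP fun ω hω => ?_
      have h3 : b ≤ ((Finset.Icc k₀ n).filter fun k => ¬ G k ω).card := by
        have h4 := Finset.card_filter_add_card_filter_not (s := Finset.Icc k₀ n)
          (fun k => G k ω)
        rw [Nat.card_Icc] at h4
        have h5 : ((Finset.Icc k₀ n).filter fun k => G k ω).card < N := hω
        omega
      obtain ⟨S, hS, hSc⟩ := Finset.exists_subset_card_eq h3
      refine ⟨S, ?_, fun k hk => (Finset.mem_filter.1 (hS hk)).2⟩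
      rw [Finset.mem_powersetCard]
      exact ⟨hS.trans (Finset.filter_subset _ _), hSc⟩
    refine h2.trans ((pr_exists_le hP _ _).trans ?_)
    calc ∑ S ∈ (Finset.Icc k₀ n).powersetCard b, pr a p (fun ω => ∀ k ∈ S, ¬ G k ω)
        ≤ ∑ S ∈ (Finset.Icc k₀ n).powersetCard b, γ ^ b := by
          refine Finset.sum_le_sum fun S hS => ?_
          rw [Finset.mem_powersetCard] at hS
          have := hγ S hS.1
          rwa [hS.2] at this
      _ = ((Finset.Icc k₀ n).powersetCard b).card * γ ^ b := by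
          rw [Finset.sum_const, nsmul_eq_mul]
      _ ≤ 2 ^ (n + 1 - k₀) * γ ^ b := by
          refine mul_le_mul_of_nonneg_right ?_ (pow_nonneg hγ0 _)
          have h6 : ((Finset.Icc k₀ n).powersetCard b).card ≤ 2 ^ (n + 1 - k₀) := by
            have h7 : ((Finset.Icc k₀ n).powersetCard b).card ≤ (Finset.Icc k₀ n).powerset.card := by
              apply Finset.card_le_card
              intro S hS
              rw [Finset.mem_powersetCard] at hS
              exact Finset.mem_powerset.2 hS.1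
            rwa [Finset.card_powerset, Nat.card_Icc] at h7
          exact_mod_cast h6
  have h8 : (N : ℝ) * (pr a p F - pr a p Few) ≤
      ∑ k ∈ Finset.Icc k₀ n, pr a p (fun ω => F ω ∧ G k ω) := by
    unfold pr
    rw [← ex_sub, ← ex_mul_left, ← ex_sum]
    refine ex_mono hP fun ω => ?_
    by_cases hF : F ω
    · by_cases hW : Few ω
      · rw [ind_true hF, ind_true hW, sub_self, mul_zero]
        exact Finset.sum_nonneg fun k _ => ind_nonneg _
      · rw [ind_true hF, ind_false hW, sub_zero, mul_one]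
        have h9 : N ≤ ((Finset.Icc k₀ n).filter fun k => G k ω).card := by
          by_contra h
          exact hW (not_le.1 h)
        have h10 : ∑ k ∈ Finset.Icc k₀ n, ind (F ω ∧ G k ω) =
            (((Finset.Icc k₀ n).filter fun k => G k ω).card : ℝ) := by
          rw [Finset.card_filter]
          push_cast
          refine Finset.sum_congr rfl fun k _ => ?_
          by_cases hG : G k ω
          · rw [ind_true ⟨hF, hG⟩, if_pos hG]
          · rw [ind_false (fun h => hG h.2), if_neg hG]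
        rw [h10]
        exact_mod_cast h9
    · rw [ind_false hF]
      have h11 : (0 : ℝ) ≤ ∑ k ∈ Finset.Icc k₀ n, ind (F ω ∧ G k ω) :=
        Finset.sum_nonneg fun k _ => ind_nonneg _
      have h12 := ind_nonneg (Few ω)
      have h13 : (0 : ℝ) ≤ N := Nat.cast_nonneg _
      nlinarith
  refine le_trans ?_ h8
  refine mul_le_mul_of_nonneg_left ?_ (Nat.cast_nonneg _)
  linarith

theorem stmtFIN (hd : 0 < d) (hp0 : 0 < p) (hp1 : p < 1) (hLD : StmtLD d p) (hLB : StmtLB d p)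
    (hUB : StmtUB d p) (hCLEAR : StmtCLEAR d p) : StmtFIN d p := by
  classical
  set e : Sp d := EuclideanSpace.single ⟨0, hd⟩ (1 : ℝ) with he
  have hen : ‖e‖ = 1 := by rw [he]; simp
  obtain ⟨l, k₀, η, lam, hl, hl5, hη, hlam, HLD⟩ := hLD e hen
  obtain ⟨C, hC, HUB⟩ := hUB
  obtain ⟨c, hc, HLB⟩ := hLB
  set κ : ℝ := p * (1 - p) * η ^ 2 * Real.exp (-(2 * lam)) with hκ
  have hκ0 : 0 < κ := by
    have : 0 < 1 - p := by linarith
    positivity
  obtain ⟨N, hN⟩ := exists_nat_gt (2 * C / κ)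
  obtain ⟨j, hj⟩ := exists_scale d k₀ N hc
  set n : ℕ := k₀ + N + j with hn
  set I : ℕ := 10 * (n + 1) + d with hI
  have hev := ((HLD I).and ((HLB I).and ((HUB I).and (Ev.good (d := d) p I 0
    (show (0 : ℝ) < 1 by norm_num)))))
  refine hev.mono ?_
  rintro 𝓜 ⟨LD, LB, UB, hg⟩
  have hP : Par 𝓜.a p := hg.par hp0 hp1
  set γ : ℝ := (1 / 2 : ℝ) ^ (10 * d + 4) with hγ
  have hγ0 : 0 ≤ γ := by positivity
  set t : ℝ := 2 ^ (10 * (n + 1)) with ht
  set ε : ℝ := 2 ^ (N + j + 1) * γ ^ (j + 2) with hε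
  have hε0 : 0 ≤ ε := by positivity
  -- the inequality at each site of the cube `0`
  have key : ∀ o : 𝓜.ι, cb (𝓜.x o) = 0 →
      κ * N * (vv p 𝓜 t o - ε) ≤ uu p 𝓜 t o - vv p 𝓜 t o := by
    intro o ho
    have hno : ‖𝓜.x o‖ ≤ I := by
      have h1 := norm_le_of_cb (d := d) ho (B := 0) (fun k => by simp)
      have h2 : (d : ℝ) ≤ I := by
        rw [hI]
        push_cast
        nlinarith [Nat.cast_nonneg (α := ℝ) n]
      linarith
    have h1 := hCLEAR e hen l k₀ η lam hη hlam hl5 hl 𝓜 hP.a_pos hP.a_half o n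
    have h2 := sum_good_ge hP (fun ω => FR 𝓜.x ω t o)
      (fun k ω => Gd 𝓜 e l η lam (𝓜.x o) k ω) k₀ n N (j + 2) (by omega) (γ := γ)
      (fun S hS => LD (𝓜.x o) hno S fun k hk => by
        have := Finset.mem_Icc.1 (hS hk)
        exact ⟨this.1, by omega⟩) hγ0
    have h3 : n + 1 - k₀ = N + j + 1 := by omega
    rw [h3] at h2
    have h4 : κ * (N * (vv p 𝓜 t o - ε)) ≤
        κ * ∑ k ∈ Finset.Icc k₀ n, pr 𝓜.a p (fun ω => FR 𝓜.x ω t o ∧
          Gd 𝓜 e l η lam (𝓜.x o) k ω) := mul_le_mul_of_nonneg_left h2 hκ0.le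
    calc κ * N * (vv p 𝓜 t o - ε) = κ * (N * (vv p 𝓜 t o - ε)) := by ring
      _ ≤ _ := h4
      _ ≤ _ := h1
  -- sum over the cube
  set V : ℝ := cs 𝓜 0 (vv p 𝓜 t) with hV
  set U : ℝ := cs 𝓜 0 (uu p 𝓜 t) with hU
  have hone : cs 𝓜 0 (fun _ => (1 : ℝ)) ≤ 1 := cs_le_one hg 0 fun _ => le_rfl
  have hsum : κ * N * (V - ε * cs 𝓜 0 (fun _ => (1 : ℝ))) ≤ U - V := by
    have e1 : κ * N * (V - ε * cs 𝓜 0 (fun _ => (1 : ℝ))) = 𝓜.a * ∑ s, if cb (𝓜.x s) = 0 then
        κ * N * (vv p 𝓜 t s - ε) else 0 := by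
      rw [hV]
      unfold cs
      have : ∀ s : 𝓜.ι, (if cb (𝓜.x s) = 0 then κ * N * (vv p 𝓜 t s - ε) else 0) =
          κ * N * (if cb (𝓜.x s) = 0 then vv p 𝓜 t s else 0) -
          κ * N * ε * (if cb (𝓜.x s) = 0 then (1 : ℝ) else 0) := by
        intro s
        split_ifs <;> ring
      rw [Finset.sum_congr rfl fun s _ => this s, Finset.sum_sub_distrib, ← Finset.mul_sum,
        ← Finset.mul_sum]
      ring
    have e2 : U - V = 𝓜.a * ∑ s, if cb (𝓜.x s) = 0 then uu p 𝓜 t s - vv p 𝓜 t s else 0 := by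
      rw [hU, hV]
      unfold cs
      rw [← mul_sub, ← Finset.sum_sub_distrib]
      congr 1
      refine Finset.sum_congr rfl fun s _ => ?_
      split_ifs <;> ring
    rw [e1, e2]
    refine mul_le_mul_of_nonneg_left (Finset.sum_le_sum fun s _ => ?_) hP.a_pos.le
    split_ifs with h
    · exact key s h
    · exact le_rfl
  have hi : 10 * (n + 1) ≤ I := by omega
  have hz : ∀ k : Fin d, |(0 : Fin d → ℤ) k| ≤ (I : ℤ) := fun k => by simp
  have hUV : U ≤ C * V := ((UB (10 * (n + 1)) hi).1 0 hz).1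
  have hVlow : c * (1 / 2) ^ (d * (10 * (n + 1))) ≤ V := LB (10 * (n + 1)) hi 0 hz
  have hεV : ε ≤ V / 2 := by
    have : ε ≤ c / 2 * (1 / 2) ^ (d * (10 * (n + 1))) := hj
    linarith
  have hV0 : 0 < V := lt_of_lt_of_le (by positivity) hVlow
  have hκN : 2 * C < κ * N := by
    rw [div_lt_iff₀ hκ0] at hN
    linarith
  have hfin : κ * N * (V / 2) ≤ C * V := by
    have h1 : V / 2 ≤ V - ε * cs 𝓜 0 (fun _ => (1 : ℝ)) := by
      nlinarith
    have h2 : κ * N * (V / 2) ≤ κ * N * (V - ε * cs 𝓜 0 (fun _ => (1 : ℝ))) :=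
      mul_le_mul_of_nonneg_left h1 (by positivity)
    linarith
  nlinarith

end Pool.Agent.Lib_helper8.ASM
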